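import Mathlib

/-!
# Project SI: functions of one variable invariant under a Möbius involution fixing `0`
-/

set_option autoImplicit false

open Filter Topology Set

namespace Pool.Agent.R825.SI

/-- the projective involution `t ↦ -t / (1 + m t)` fixing `0` -/
noncomputable def sg (m t : ℝ) : ℝ := -t / (1 + m * t)

theorem sg_deriv {m t : ℝ} (ht : 1 + m * t ≠ 0) :
    HasDerivAt (sg m) (-1 / (1 + m * t) ^ 2) t := by
  have h1 : HasDerivAt (fun t : ℝ => -t) (-1) t := (hasDerivAt_id t).neg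
  have h2 : HasDerivAt (fun t : ℝ => 1 + m * t) m t := by
    simpa using ((hasDerivAt_id t).const_mul m).const_add 1
  have h3 := h1.div h2 ht
  have h4 : (-1 * (1 + m * t) - -t * m) / (1 + m * t) ^ 2 = -1 / (1 + m * t) ^ 2 := by
    congr 1
    ring
  rw [h4] at h3
  exact h3

theorem glob {K : ℝ → ℝ} (hK : ∀ x, AnalyticAt ℝ K x) {m : ℝ}
    (h : ∀ᶠ t in 𝓝 (0 : ℝ), K (sg m t) = K t) :
    ∀ t, 0 < 1 + m * t → K (sg m t) = K t := by
  set D : Set ℝ := {t | 0 < 1 + m * t} with hD
  have hconv : Convex ℝ D := by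
    intro a ha b hb u v hu hv huv
    simp only [hD, Set.mem_ofPred_eq, smul_eq_mul] at ha hb ⊢
    have e : 1 + m * (u * a + v * b) = u * (1 + m * a) + v * (1 + m * b) := by
      have : (1 : ℝ) = u + v := huv.symm
      nlinarith
    rw [e]
    rcases lt_or_eq_of_le hu with hu' | hu'
    · have := mul_pos hu' ha
      have := mul_nonneg hv hb.le
      linarith
    · have hv' : v = 1 := by linarith
      rw [← hu', hv']
      linarith
  have hpre : IsPreconnected D := hconv.isPreconnected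
  have h1 : AnalyticOnNhd ℝ (fun t => K (sg m t)) D := by
    intro t ht
    have h2 : AnalyticAt ℝ (sg m) t := by
      unfold sg
      exact (analyticAt_id.neg).div (analyticAt_const.add (analyticAt_const.mul analyticAt_id))
        (ne_of_gt ht)
    exact (hK _).comp h2
  have h2 : AnalyticOnNhd ℝ K D := fun t _ => hK t
  have h3 := h1.eqOn_of_preconnected_of_eventuallyEq h2 hpre (z₀ := 0) (by simp [hD]) h
  exact fun t ht => h3 ht

theorem rel1 {K : ℝ → ℝ} (hK : ∀ x, AnalyticAt ℝ K x) {m : ℝ}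
    (h : ∀ t, 0 < 1 + m * t → K (sg m t) = K t) (t : ℝ) (ht : 0 < 1 + m * t) :
    deriv K (sg m t) = -(1 + m * t) ^ 2 * deriv K t := by
  have h1 : HasDerivAt (fun t => K (sg m t)) (deriv K (sg m t) * (-1 / (1 + m * t) ^ 2)) t :=
    (hK _).differentiableAt.hasDerivAt.comp t (sg_deriv ht.ne')
  have h2 : (fun t => K (sg m t)) =ᶠ[𝓝 t] K := by
    have : ∀ᶠ u in 𝓝 t, 0 < 1 + m * u := by
      have hc : ContinuousAt (fun u : ℝ => 1 + m * u) t := by fun_prop
      exact hc.eventually_const_lt ht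
    filter_upwards [this] with u hu using h u hu
  have h3 : HasDerivAt K (deriv K (sg m t) * (-1 / (1 + m * t) ^ 2)) t :=
    h1.congr_of_eventuallyEq h2.symm
  have h4 := h3.deriv
  rw [h4]
  field_simp

theorem third {K : ℝ → ℝ} (hK : ∀ x, AnalyticAt ℝ K x) {m : ℝ}
    (h : ∀ t, 0 < 1 + m * t → K (sg m t) = K t) :
    deriv K 0 = 0 ∧ 3 * m * deriv (deriv K) 0 = - deriv (deriv (deriv K)) 0 := by
  set L := deriv K with hL
  have hLa : ∀ x, AnalyticAt ℝ L x := fun x => (hK x).deriv
  set M := deriv L with hM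
  have hMa : ∀ x, AnalyticAt ℝ M x := fun x => (hLa x).deriv
  have r1 : ∀ t, 0 < 1 + m * t → L (sg m t) = -(1 + m * t) ^ 2 * L t := rel1 hK h
  have s0 : sg m 0 = 0 := by simp [sg]
  have hL0 : L 0 = 0 := by
    have := r1 0 (by norm_num)
    rw [s0] at this
    linarith
  have dlin : ∀ t : ℝ, HasDerivAt (fun t : ℝ => 1 + m * t) m t := fun t => by
    simpa using ((hasDerivAt_id t).const_mul m).const_add 1
  have evt : ∀ t, 0 < 1 + m * t → ∀ᶠ u in 𝓝 t, 0 < 1 + m * u := fun t ht => by
    have hc : ContinuousAt (fun u : ℝ => 1 + m * u) t := by fun_prop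
    exact hc.eventually_const_lt ht
  have r2 : ∀ t, 0 < 1 + m * t → M (sg m t) =
      (1 + m * t) ^ 2 * (2 * m * (1 + m * t) * L t + (1 + m * t) ^ 2 * M t) := by
    intro t ht
    have h1 : HasDerivAt (fun t => L (sg m t)) (M (sg m t) * (-1 / (1 + m * t) ^ 2)) t :=
      (hLa _).differentiableAt.hasDerivAt.comp t (sg_deriv ht.ne')
    have h2 : HasDerivAt (fun t => -(1 + m * t) ^ 2 * L t)
        (-(2 * m * (1 + m * t) * L t + (1 + m * t) ^ 2 * M t)) t := by
      have h3 := (((dlin t).pow 2).neg).mul (hLa t).differentiableAt.hasDerivAt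
      refine h3.congr_deriv ?_
      simp only [Pi.neg_apply, Pi.pow_apply]
      push_cast
      ring
    have h3 : (fun t => L (sg m t)) =ᶠ[𝓝 t] fun t => -(1 + m * t) ^ 2 * L t := by
      filter_upwards [evt t ht] with u hu using r1 u hu
    have h4 := (h1.congr_of_eventuallyEq h3.symm).unique h2
    have h5 : (1 + m * t) ^ 2 ≠ 0 := pow_ne_zero _ ht.ne'
    field_simp at h4
    linear_combination (-1) * h4
  have h1 : HasDerivAt (fun t => M (sg m t)) (deriv M (sg m 0) * (-1 / (1 + m * 0) ^ 2)) 0 :=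
    (hMa _).differentiableAt.hasDerivAt.comp 0 (sg_deriv (by norm_num))
  have h2 : HasDerivAt (fun t => (1 + m * t) ^ 2 * (2 * m * (1 + m * t) * L t + (1 + m * t) ^ 2 * M t))
      (6 * m * M 0 + deriv M 0) 0 := by
    have a1 := (dlin 0).pow 2
    have a2 := (((dlin 0).const_mul (2 * m)).mul (hLa 0).differentiableAt.hasDerivAt).add
      (((dlin 0).pow 2).mul (hMa 0).differentiableAt.hasDerivAt)
    have a3 := a1.mul a2
    refine a3.congr_deriv ?_
    simp only [Pi.add_apply, Pi.mul_apply, Pi.pow_apply]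
    rw [hL0]
    push_cast
    ring
  have h3 : (fun t => M (sg m t)) =ᶠ[𝓝 0] fun t =>
      (1 + m * t) ^ 2 * (2 * m * (1 + m * t) * L t + (1 + m * t) ^ 2 * M t) := by
    filter_upwards [evt 0 (by norm_num)] with u hu using r2 u hu
  have h4 := (h1.congr_of_eventuallyEq h3.symm).unique h2
  rw [s0] at h4
  norm_num at h4
  refine ⟨hL0, ?_⟩
  linarith

end Pool.Agent.R825.SI
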