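import Pool.Agent.R825.SI.A

/-!
# Project SI: level curves of `f x + g y + e x y` as graphs
-/

set_option autoImplicit false

open Filter Topology Set
open scoped ContDiff

namespace Pool.Agent.R825.SI

/-- `f x + g y + e x y` -/
noncomputable def FF (f g : ℝ → ℝ) (e : ℝ) (p : ℝ × ℝ) : ℝ := f p.1 + g p.2 + e * p.1 * p.2

/-- the partial derivative with respect to `x` -/
noncomputable def Fx (f : ℝ → ℝ) (e : ℝ) (p : ℝ × ℝ) : ℝ := deriv f p.1 + e * p.2

/-- the partial derivative with respect to `y` -/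
noncomputable def Fy (g : ℝ → ℝ) (e : ℝ) (p : ℝ × ℝ) : ℝ := deriv g p.2 + e * p.1

variable {f g : ℝ → ℝ} {e : ℝ}

theorem FF_analytic (hf : ∀ x, AnalyticAt ℝ f x) (hg : ∀ y, AnalyticAt ℝ g y) (p : ℝ × ℝ) :
    AnalyticAt ℝ (FF f g e) p := by
  unfold FF
  have h1 : AnalyticAt ℝ (fun p : ℝ × ℝ => p.1) p := analyticAt_fst
  have h2 : AnalyticAt ℝ (fun p : ℝ × ℝ => p.2) p := analyticAt_snd
  have h3 : AnalyticAt ℝ (fun p : ℝ × ℝ => f p.1) p := (hf p.1).comp h1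
  have h4 : AnalyticAt ℝ (fun p : ℝ × ℝ => g p.2) p := (hg p.2).comp h2
  exact (h3.add h4).add ((analyticAt_const.mul h1).mul h2)

theorem hasDeriv_y (hg : ∀ y, AnalyticAt ℝ g y) (p : ℝ × ℝ) :
    HasDerivAt (fun y => FF f g e (p.1, y)) (Fy g e p) p.2 := by
  unfold FF Fy
  have h1 := (hg p.2).differentiableAt.hasDerivAt
  have h2 : HasDerivAt (fun y : ℝ => e * p.1 * y) (e * p.1) p.2 := by
    simpa using (hasDerivAt_id p.2).const_mul (e * p.1)
  exact (h1.const_add (f p.1)).add h2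

theorem ift (hf : ∀ x, AnalyticAt ℝ f x) (hg : ∀ y, AnalyticAt ℝ g y) (p : ℝ × ℝ)
    (hp : Fy g e p ≠ 0) :
    ∃ Y : ℝ → ℝ, Y p.1 = p.2 ∧ AnalyticAt ℝ Y p.1 ∧
      ∀ᶠ x in 𝓝 p.1, FF f g e (x, Y x) = FF f g e p := by
  have cdf : ContDiffAt ℝ ω (FF f g e) p := (FF_analytic hf hg p).contDiffAt
  have hd : DifferentiableAt ℝ (FF f g e) p := (FF_analytic hf hg p).differentiableAt
  have h1 : HasDerivAt (fun y => FF f g e (p.1, y)) ((fderiv ℝ (FF f g e) p) (0, 1)) p.2 := by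
    have h2 : HasDerivAt (fun y : ℝ => (p.1, y)) ((0 : ℝ), (1 : ℝ)) p.2 :=
      (hasDerivAt_const p.2 p.1).prodMk (hasDerivAt_id p.2)
    exact hd.hasFDerivAt.comp_hasDerivAt p.2 h2
  have h3 : (fderiv ℝ (FF f g e) p) (0, 1) = Fy g e p := h1.unique (hasDeriv_y hg p)
  have if₂ : (fderiv ℝ (FF f g e) p ∘L .inr ℝ ℝ ℝ).IsInvertible := by
    refine ⟨ContinuousLinearEquiv.unitsEquivAut ℝ (Units.mk0 _ hp), ?_⟩
    ext
    simp [h3]
  exact ⟨cdf.implicitFunction (by simp) if₂, cdf.implicitFunction_apply_self _ _,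
    analyticWithinAt_univ.mp (contDiffWithinAt_omega_iff_analyticWithinAt.1
      (cdf.contDiffAt_implicitFunction _ _).contDiffWithinAt),
    cdf.eventually_apply_implicitFunction _ _⟩

end Pool.Agent.R825.SI
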