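import Pool.Agent.R825.SI.B

/-!
# Project SI: the curve near a point with horizontal tangent
-/

set_option autoImplicit false

open Filter Topology Set
open scoped ContDiff

namespace Pool.Agent.R825.SI

variable {f g : ℝ → ℝ} {e : ℝ}

/-- `F` restricted to the line through `(x, y)` with direction `(a, b)` -/
noncomputable def ln (f g : ℝ → ℝ) (e x y a b : ℝ) (s : ℝ) : ℝ := FF f g e (x + s * a, y + s * b)

theorem ln_analytic (hf : ∀ x, AnalyticAt ℝ f x) (hg : ∀ y, AnalyticAt ℝ g y) (x y a b s : ℝ) :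
    AnalyticAt ℝ (ln f g e x y a b) s := by
  unfold ln
  have h1 : AnalyticAt ℝ (fun s : ℝ => (x + s * a, y + s * b)) s := by fun_prop
  exact (FF_analytic hf hg _).comp h1

theorem aff_deriv (x a s : ℝ) : HasDerivAt (fun s : ℝ => x + s * a) a s := by
  simpa using ((hasDerivAt_id s).mul_const a).const_add x

theorem ln_d1 (hf : ∀ x, AnalyticAt ℝ f x) (hg : ∀ y, AnalyticAt ℝ g y) (x y a b : ℝ) :
    deriv (ln f g e x y a b) = fun s => a * deriv f (x + s * a) + b * deriv g (y + s * b) +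
      e * (a * (y + s * b) + b * (x + s * a)) := by
  funext s
  have h1 : HasDerivAt (fun s => f (x + s * a)) (deriv f (x + s * a) * a) s :=
    (hf _).differentiableAt.hasDerivAt.comp s (aff_deriv x a s)
  have h2 : HasDerivAt (fun s => g (y + s * b)) (deriv g (y + s * b) * b) s :=
    (hg _).differentiableAt.hasDerivAt.comp s (aff_deriv y b s)
  have h3 := ((aff_deriv x a s).const_mul e).mul (aff_deriv y b s)
  have h4 := (h1.add h2).add h3
  have h5 : HasDerivAt (ln f g e x y a b) (deriv f (x + s * a) * a + deriv g (y + s * b) * b +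
      (e * a * (y + s * b) + e * (x + s * a) * b)) s := h4
  rw [h5.deriv]
  ring

theorem ln_d2 (hf : ∀ x, AnalyticAt ℝ f x) (hg : ∀ y, AnalyticAt ℝ g y) (x y a b : ℝ) :
    deriv (deriv (ln f g e x y a b)) = fun s => a ^ 2 * deriv (deriv f) (x + s * a) +
      b ^ 2 * deriv (deriv g) (y + s * b) + 2 * e * a * b := by
  funext s
  rw [ln_d1 hf hg]
  have h1 : HasDerivAt (fun s => deriv f (x + s * a)) (deriv (deriv f) (x + s * a) * a) s :=
    (hf _).deriv.differentiableAt.hasDerivAt.comp s (aff_deriv x a s)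
  have h2 : HasDerivAt (fun s => deriv g (y + s * b)) (deriv (deriv g) (y + s * b) * b) s :=
    (hg _).deriv.differentiableAt.hasDerivAt.comp s (aff_deriv y b s)
  have h3 := ((((aff_deriv y b s).const_mul a).add ((aff_deriv x a s).const_mul b))).const_mul e
  have h4 := ((h1.const_mul a).add (h2.const_mul b)).add h3
  have h5 : HasDerivAt (fun s => a * deriv f (x + s * a) + b * deriv g (y + s * b) +
      e * (a * (y + s * b) + b * (x + s * a))) (a * (deriv (deriv f) (x + s * a) * a) +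
      b * (deriv (deriv g) (y + s * b) * b) + e * (a * b + b * a)) s := h4
  rw [h5.deriv]
  ring

theorem ln_d3 (hf : ∀ x, AnalyticAt ℝ f x) (hg : ∀ y, AnalyticAt ℝ g y) (x y a b : ℝ) :
    deriv (deriv (deriv (ln f g e x y a b))) = fun s =>
      a ^ 3 * deriv (deriv (deriv f)) (x + s * a) +
      b ^ 3 * deriv (deriv (deriv g)) (y + s * b) := by
  funext s
  rw [ln_d2 hf hg]
  have h1 : HasDerivAt (fun s => deriv (deriv f) (x + s * a))
      (deriv (deriv (deriv f)) (x + s * a) * a) s :=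
    (hf _).deriv.deriv.differentiableAt.hasDerivAt.comp s (aff_deriv x a s)
  have h2 : HasDerivAt (fun s => deriv (deriv g) (y + s * b))
      (deriv (deriv (deriv g)) (y + s * b) * b) s :=
    (hg _).deriv.deriv.differentiableAt.hasDerivAt.comp s (aff_deriv y b s)
  have h4 := ((h1.const_mul (a ^ 2)).add (h2.const_mul (b ^ 2))).add_const (2 * e * a * b)
  have h5 : HasDerivAt (fun s => a ^ 2 * deriv (deriv f) (x + s * a) +
      b ^ 2 * deriv (deriv g) (y + s * b) + 2 * e * a * b)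
      (a ^ 2 * (deriv (deriv (deriv f)) (x + s * a) * a) +
        b ^ 2 * (deriv (deriv (deriv g)) (y + s * b) * b)) s := h4
  rw [h5.deriv]
  ring

/-- the hypotheses on the curve -/
structure Cv (f g : ℝ → ℝ) (e c : ℝ) (γ U : Set (ℝ × ℝ)) : Prop where
  hf : ∀ x, AnalyticAt ℝ f x
  hg : ∀ y, AnalyticAt ℝ g y
  hU : IsOpen U
  hγ : γ = {p | p ∈ U ∧ FF f g e p = c}
  reg : ∀ p ∈ γ, Fx f e p ≠ 0 ∨ Fy g e p ≠ 0
  curv : ∀ p ∈ γ, deriv (deriv (ln f g e p.1 p.2 (Fy g e p) (-Fx f e p))) 0 ≠ 0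
  proj : ∀ p ∈ γ, ∃ m : ℝ, ∀ᶠ s in 𝓝 (0 : ℝ),
    ln f g e p.1 p.2 (Fy g e p) (-Fx f e p) (sg m s) = ln f g e p.1 p.2 (Fy g e p) (-Fx f e p) s

/-- all involutions are point reflections -/
def Refl (f g : ℝ → ℝ) (e : ℝ) (γ : Set (ℝ × ℝ)) : Prop :=
  ∀ p ∈ γ, ∀ m : ℝ, (∀ᶠ s in 𝓝 (0 : ℝ),
    ln f g e p.1 p.2 (Fy g e p) (-Fx f e p) (sg m s) =
      ln f g e p.1 p.2 (Fy g e p) (-Fx f e p) s) → m = 0

variable {c : ℝ} {γ U : Set (ℝ × ℝ)}

theorem curve (H : Cv f g e c γ U) (p : ℝ × ℝ) (hp : p ∈ γ) (hy : Fy g e p ≠ 0) :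
    ∃ Y : ℝ → ℝ, Y p.1 = p.2 ∧ AnalyticAt ℝ Y p.1 ∧ ∀ᶠ x in 𝓝 p.1, AnalyticAt ℝ Y x ∧
      (x, Y x) ∈ γ ∧ Fy g e (x, Y x) ≠ 0 ∧
      deriv Y x = -Fx f e (x, Y x) / Fy g e (x, Y x) := by
  obtain ⟨Y, h1, h2, h3⟩ := ift H.hf H.hg p hy
  refine ⟨Y, h1, h2, ?_⟩
  have hpc : p ∈ U ∧ FF f g e p = c := by rw [H.hγ] at hp; exact hp
  have h4 : ∀ᶠ x in 𝓝 p.1, AnalyticAt ℝ Y x := h2.eventually_analyticAt
  have hcont : ContinuousAt (fun x => (x, Y x)) p.1 := continuousAt_id.prodMk h2.continuousAt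
  have h5 : ∀ᶠ x in 𝓝 p.1, (x, Y x) ∈ U := by
    apply hcont.eventually_mem
    rw [h1]
    exact H.hU.mem_nhds hpc.1
  have h6 : ∀ᶠ x in 𝓝 p.1, Fy g e (x, Y x) ≠ 0 := by
    have hc : ContinuousAt (fun x => Fy g e (x, Y x)) p.1 := by
      unfold Fy
      have e1 : ContinuousAt (fun x => deriv g (Y x)) p.1 := by
        have e2 : ContinuousAt (deriv g) (Y p.1) := (H.hg _).deriv.continuousAt
        exact ContinuousAt.comp (f := Y) (x := p.1) e2 h2.continuousAt
      exact e1.add (continuousAt_const.mul continuousAt_id)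
    have hv : Fy g e (p.1, Y p.1) ≠ 0 := by
      rw [h1]
      exact hy
    exact hc.eventually_ne hv
  have h3' := h3.eventually_nhds
  filter_upwards [h4, h5, h6, h3'] with x a1 a2 a3 a4
  have a5 : FF f g e (x, Y x) = FF f g e p := a4.self_of_nhds
  refine ⟨a1, ?_, a3, ?_⟩
  · rw [H.hγ]
    exact ⟨a2, a5.trans hpc.2⟩
  · have b1 : HasDerivAt (fun x => f x + g (Y x) + e * x * Y x)
        (deriv f x + deriv g (Y x) * deriv Y x + (e * 1 * Y x + e * x * deriv Y x)) x := by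
      have c1 := (H.hf x).differentiableAt.hasDerivAt
      have c2 : HasDerivAt (fun x => g (Y x)) (deriv g (Y x) * deriv Y x) x :=
        (H.hg _).differentiableAt.hasDerivAt.comp x a1.differentiableAt.hasDerivAt
      have c3 := ((hasDerivAt_id x).const_mul e).mul a1.differentiableAt.hasDerivAt
      exact (c1.add c2).add c3
    have b2 : (fun x => f x + g (Y x) + e * x * Y x) =ᶠ[𝓝 x] fun _ => FF f g e p := a4
    have b3 := (b1.congr_of_eventuallyEq b2.symm).unique (hasDerivAt_const x (FF f g e p))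
    unfold Fx
    rw [eq_div_iff a3]
    unfold Fy
    simp only
    linear_combination b3

theorem norm_inv (p : ℝ × ℝ) (hy : Fy g e p ≠ 0) {m : ℝ}
    (h : ∀ᶠ s in 𝓝 (0 : ℝ),
      ln f g e p.1 p.2 (Fy g e p) (-Fx f e p) (sg m s) =
        ln f g e p.1 p.2 (Fy g e p) (-Fx f e p) s) :
    ∀ᶠ t in 𝓝 (0 : ℝ), ln f g e p.1 p.2 1 (-Fx f e p / Fy g e p) (sg (m / Fy g e p) t) =
      ln f g e p.1 p.2 1 (-Fx f e p / Fy g e p) t := by
  have ht : Tendsto (fun t : ℝ => t / Fy g e p) (𝓝 0) (𝓝 0) := by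
    have : Tendsto (fun t : ℝ => t / Fy g e p) (𝓝 0) (𝓝 (0 / Fy g e p)) :=
      (continuous_id.div_const _).tendsto 0
    simpa using this
  filter_upwards [ht.eventually h] with t h1
  unfold ln at h1 ⊢
  set w := Fy g e p with hw
  have e1 : sg m (t / w) * w = sg (m / w) t * 1 := by
    unfold sg
    rw [show 1 + m * (t / w) = 1 + m / w * t by ring]
    field_simp
  have e2 : sg m (t / w) * -Fx f e p = sg (m / w) t * (-Fx f e p / w) := by
    have : sg m (t / w) = sg (m / w) t / w := by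
      rw [eq_div_iff hy, e1, mul_one]
    rw [this]
    ring
  have e3 : t / w * w = t * 1 := by field_simp
  have e4 : t / w * -Fx f e p = t * (-Fx f e p / w) := by ring
  rw [e1, e2, e3, e4] at h1
  exact h1

end Pool.Agent.R825.SI
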