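import Pool.Agent.R825.SI.C

/-!
# Project SI: the restriction to a horizontal tangent line
-/

set_option autoImplicit false

open Filter Topology Set
open scoped ContDiff

namespace Pool.Agent.R825.SI

variable {f g : ℝ → ℝ} {e c : ℝ} {γ U : Set (ℝ × ℝ)}

/-- the coefficient of the involution, in the parameter `x` -/
noncomputable def mu (f g : ℝ → ℝ) (e : ℝ) (Y : ℝ → ℝ) (x : ℝ) : ℝ :=
  -(deriv (deriv (deriv f)) x + deriv Y x ^ 3 * deriv (deriv (deriv g)) (Y x)) /
    (3 * (deriv (deriv f) x + deriv Y x ^ 2 * deriv (deriv g) (Y x) + 2 * e * deriv Y x))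

theorem mu_eq (H : Cv f g e c γ U) (Y : ℝ → ℝ) (x : ℝ) (hx : (x, Y x) ∈ γ)
    (hy : Fy g e (x, Y x) ≠ 0) (hd : deriv Y x = -Fx f e (x, Y x) / Fy g e (x, Y x)) :
    deriv (deriv f) x + deriv Y x ^ 2 * deriv (deriv g) (Y x) + 2 * e * deriv Y x ≠ 0 ∧
    (∀ t, 0 < 1 + mu f g e Y x * t →
      ln f g e x (Y x) 1 (deriv Y x) (sg (mu f g e Y x) t) =
        ln f g e x (Y x) 1 (deriv Y x) t) ∧
    (Refl f g e γ → mu f g e Y x = 0) := by
  have hc := H.curv _ hx
  rw [ln_d2 H.hf H.hg] at hc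
  simp only [zero_mul, add_zero] at hc
  have hxw : -Fx f e (x, Y x) = deriv Y x * Fy g e (x, Y x) := by
    rw [hd]
    field_simp
  rw [hxw] at hc
  have hc' : deriv (deriv f) x + deriv Y x ^ 2 * deriv (deriv g) (Y x) + 2 * e * deriv Y x ≠ 0 := by
    intro h0
    apply hc
    linear_combination (Fy g e (x, Y x)) ^ 2 * h0
  obtain ⟨m, hm⟩ := H.proj _ hx
  have h1 := norm_inv (x, Y x) hy hm
  simp only at h1
  rw [← hd] at h1
  have h2 := glob (ln_analytic H.hf H.hg x (Y x) 1 (deriv Y x)) h1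
  have h3 := (third (ln_analytic H.hf H.hg x (Y x) 1 (deriv Y x)) h2).2
  rw [ln_d3 H.hf H.hg, ln_d2 H.hf H.hg] at h3
  simp only [zero_mul, add_zero, one_pow, one_mul, mul_one] at h3
  have h4 : m / Fy g e (x, Y x) = mu f g e Y x := by
    unfold mu
    rw [eq_div_iff (mul_ne_zero three_ne_zero hc')]
    linear_combination h3
  refine ⟨hc', ?_, ?_⟩
  · rw [← h4]
    exact h2
  · intro hR
    rw [← h4, hR _ hx m hm, zero_div]

theorem closure_pt {φ : ℝ → ℝ} (hφ : Continuous φ) {m : ℝ} (hm : m ≠ 0)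
    (h : ∀ s, 0 < 1 + m * s → φ s = 0) : φ (-1 / m) = 0 := by
  have h1 : Tendsto (fun ε : ℝ => φ (-1 / m * (1 - ε))) (𝓝[>] 0) (𝓝 (φ (-1 / m))) := by
    have h2 : Tendsto (fun ε : ℝ => φ (-1 / m * (1 - ε))) (𝓝 0) (𝓝 (φ (-1 / m * (1 - 0)))) := by
      have : Continuous fun ε : ℝ => φ (-1 / m * (1 - ε)) :=
        hφ.comp (continuous_const.mul (continuous_const.sub continuous_id))
      exact this.tendsto 0
    rw [sub_zero, mul_one] at h2
    exact h2.mono_left nhdsWithin_le_nhds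
  have h2 : (fun ε : ℝ => φ (-1 / m * (1 - ε))) =ᶠ[𝓝[>] 0] fun _ => (0 : ℝ) := by
    filter_upwards [self_mem_nhdsWithin] with ε hε
    apply h
    have : 1 + m * (-1 / m * (1 - ε)) = ε := by
      field_simp
      ring
    rw [this]
    exact hε
  exact tendsto_nhds_unique_of_eventuallyEq h1 tendsto_const_nhds h2

theorem moving (hf : ∀ x, AnalyticAt ℝ f x) (hg : ∀ y, AnalyticAt ℝ g y) {Y τ : ℝ → ℝ}
    {x0 τ1 y2 : ℝ} (hY : HasDerivAt Y 0 x0) (hY2 : HasDerivAt (deriv Y) y2 x0)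
    (hτ : HasDerivAt τ τ1 x0) :
    HasDerivAt (fun x => ln f g e x (Y x) 1 (deriv Y x) (τ x))
      ((deriv f (x0 + τ x0) + e * Y x0) * (1 + τ1) +
        (deriv g (Y x0) + e * (x0 + τ x0)) * (τ x0 * y2)) x0 := by
  have hY0 : deriv Y x0 = 0 := hY.deriv
  have a1 : HasDerivAt (fun x => x + τ x * 1) (1 + τ1 * 1) x0 :=
    (hasDerivAt_id x0).add (hτ.mul_const 1)
  have a2 : HasDerivAt (fun x => Y x + τ x * deriv Y x) (0 + (τ1 * deriv Y x0 + τ x0 * y2)) x0 :=
    hY.add (hτ.mul hY2)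
  have a3 : HasDerivAt (fun x => f (x + τ x * 1)) (deriv f (x0 + τ x0 * 1) * (1 + τ1 * 1)) x0 :=
    (hf _).differentiableAt.hasDerivAt.comp x0 a1
  have a4 : HasDerivAt (fun x => g (Y x + τ x * deriv Y x))
      (deriv g (Y x0 + τ x0 * deriv Y x0) * (0 + (τ1 * deriv Y x0 + τ x0 * y2))) x0 :=
    (hg _).differentiableAt.hasDerivAt.comp x0 a2
  have a5 := (a3.add a4).add ((a1.const_mul e).mul a2)
  have a6 : HasDerivAt (fun x => ln f g e x (Y x) 1 (deriv Y x) (τ x)) _ x0 := a5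
  refine a6.congr_deriv ?_
  rw [hY0]
  simp only [mul_zero, add_zero, mul_one, zero_add]
  ring

/-- the restriction of `F` to a horizontal tangent line -/
theorem point (H : Cv f g e c γ U) (p : ℝ × ℝ) (hp : p ∈ γ) (hx : Fx f e p = 0) :
    ∃ (Y : ℝ → ℝ) (l : ℝ), Y p.1 = p.2 ∧ AnalyticAt ℝ Y p.1 ∧ (∀ᶠ x in 𝓝 p.1, (x, Y x) ∈ γ) ∧
      deriv Y p.1 = 0 ∧ deriv (deriv Y) p.1 = -deriv (deriv f) p.1 / Fy g e p ∧
      deriv (deriv f) p.1 ≠ 0 ∧ Fy g e p ≠ 0 ∧ 0 ≤ l ∧
      (∀ s, (deriv f (p.1 + s) + e * p.2) * (1 + l * s ^ 2) = deriv (deriv f) p.1 * s) ∧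
      (Refl f g e γ → l = 0) := by
  have hy : Fy g e p ≠ 0 := by
    rcases H.reg p hp with h | h
    · exact absurd hx h
    · exact h
  obtain ⟨Y, h1, h2, h3⟩ := curve H p hp hy
  have hY0 : deriv Y p.1 = 0 := by
    rw [h3.self_of_nhds.2.2.2, h1]
    have : Fx f e (p.1, p.2) = 0 := hx
    rw [this]
    simp
  have hYd : HasDerivAt Y 0 p.1 := by
    have := h2.differentiableAt.hasDerivAt
    rwa [hY0] at this
  set G := Fy g e p with hG
  set A := deriv (deriv f) p.1 with hA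
  have hY2 : HasDerivAt (deriv Y) (-A / G) p.1 := by
    have b1 : HasDerivAt (fun x => -Fx f e (x, Y x)) (-(A + e * 0)) p.1 := by
      unfold Fx
      exact (((H.hf _).deriv.differentiableAt.hasDerivAt).add (hYd.const_mul e)).neg
    have b2 : HasDerivAt (fun x => Fy g e (x, Y x)) (deriv (deriv g) (Y p.1) * 0 + e * 1) p.1 := by
      unfold Fy
      have c1 : HasDerivAt (fun x => deriv g (Y x)) (deriv (deriv g) (Y p.1) * 0) p.1 :=
        (H.hg _).deriv.differentiableAt.hasDerivAt.comp p.1 hYd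
      exact c1.add ((hasDerivAt_id p.1).const_mul e)
    have hne : Fy g e (p.1, Y p.1) ≠ 0 := by
      rw [h1]
      exact hy
    have b3 := b1.div b2 hne
    have b4 : (deriv Y) =ᶠ[𝓝 p.1] fun x => -Fx f e (x, Y x) / Fy g e (x, Y x) := by
      filter_upwards [h3] with x hx' using hx'.2.2.2
    have b5 := b3.congr_of_eventuallyEq b4
    refine b5.congr_deriv ?_
    have e1 : Fx f e (p.1, Y p.1) = 0 := by
      rw [h1]
      exact hx
    have e2 : Fy g e (p.1, Y p.1) = G := by rw [h1]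
    rw [e1, e2]
    field_simp
    ring
  have hmu0 := mu_eq H Y p.1 (by rw [h1]; exact hp) (by rw [h1]; exact hy) h3.self_of_nhds.2.2.2
  have hA0 : A ≠ 0 := by
    have := hmu0.1
    rw [hY0] at this
    simpa using this
  -- the function `mu` is differentiable
  have hmud : ∃ μ1, HasDerivAt (mu f g e Y) μ1 p.1 := by
    have hYa' : AnalyticAt ℝ (deriv Y) p.1 := h2.deriv
    have k1 : AnalyticAt ℝ (fun x => deriv (deriv (deriv g)) (Y x)) p.1 :=
      (H.hg _).deriv.deriv.deriv.comp h2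
    have k2 : AnalyticAt ℝ (fun x => deriv (deriv g) (Y x)) p.1 :=
      (H.hg _).deriv.deriv.comp h2
    have k3 : AnalyticAt ℝ (fun x => -(deriv (deriv (deriv f)) x +
        deriv Y x ^ 3 * deriv (deriv (deriv g)) (Y x))) p.1 :=
      (((H.hf _).deriv.deriv.deriv).add ((hYa'.pow 3).mul k1)).neg
    have k4 : AnalyticAt ℝ (fun x => 3 * (deriv (deriv f) x +
        deriv Y x ^ 2 * deriv (deriv g) (Y x) + 2 * e * deriv Y x)) p.1 :=
      analyticAt_const.mul ((((H.hf _).deriv.deriv).add ((hYa'.pow 2).mul k2)).add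
        (analyticAt_const.mul hYa'))
    have k5 := (k3.div k4 (mul_ne_zero three_ne_zero hmu0.1)).differentiableAt.hasDerivAt
    exact ⟨_, k5⟩
  obtain ⟨μ1, hμ1⟩ := hmud
  set μ0 := mu f g e Y p.1 with hμ0
  -- first order perturbation
  have hmain : ∀ s, 0 < 1 + μ0 * s →
      (deriv f (p.1 + s) + e * p.2) * (1 + (1 + μ0 * s) ^ 2 + μ1 * s ^ 2) * (1 + μ0 * s) ^ 2 =
        A * (s * (1 + μ0 * s) ^ 2 + s * (1 + μ0 * s)) +
          A * e / G * (s ^ 2 * (1 + μ0 * s) ^ 2 - s ^ 2) := by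
    intro s hs
    have q1 : HasDerivAt (fun x => sg (mu f g e Y x) s) (μ1 * s ^ 2 / (1 + μ0 * s) ^ 2) p.1 := by
      unfold sg
      have r1 : HasDerivAt (fun x => 1 + mu f g e Y x * s) (μ1 * s) p.1 :=
        (hμ1.mul_const s).const_add 1
      have r2 := (hasDerivAt_const p.1 (-s)).div r1 hs.ne'
      refine r2.congr_deriv ?_
      rw [← hμ0]
      ring
    have q2 := moving (e := e) H.hf H.hg hYd hY2 q1
    have q3 := moving (e := e) H.hf H.hg hYd hY2 (hasDerivAt_const p.1 s)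
    have q4 : (fun x => ln f g e x (Y x) 1 (deriv Y x) (sg (mu f g e Y x) s)) =ᶠ[𝓝 p.1]
        fun x => ln f g e x (Y x) 1 (deriv Y x) s := by
      have r1 : ∀ᶠ x in 𝓝 p.1, 0 < 1 + mu f g e Y x * s := by
        have r2 : ContinuousAt (fun x => 1 + mu f g e Y x * s) p.1 :=
          continuousAt_const.add (hμ1.continuousAt.mul continuousAt_const)
        exact r2.eventually_const_lt hs
      filter_upwards [r1, h3] with x r3 r4
      exact (mu_eq H Y x r4.2.1 r4.2.2.1 r4.2.2.2).2.1 s r3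
    have q5 := (q2.congr_of_eventuallyEq q4.symm).unique q3
    rw [← hμ0] at q5
    have q6 := rel1 (ln_analytic H.hf H.hg p.1 (Y p.1) 1 (deriv Y p.1)) hmu0.2.1 s hs
    rw [ln_d1 H.hf H.hg, hY0] at q6
    simp only [mul_zero, add_zero, mul_one, one_mul, zero_mul] at q6
    rw [h1] at q5 q6
    have q7 : deriv g p.2 = G - e * p.1 := by
      rw [hG]
      unfold Fy
      ring
    rw [q7] at q5
    set u := 1 + μ0 * s with hu
    have hu0 : u ≠ 0 := hs.ne'
    have hsg : sg μ0 s = -s / u := rfl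
    set κs := deriv f (p.1 + s) with hκs
    set κσ := deriv f (p.1 + sg μ0 s) with hκσ
    have q8 : κσ + e * p.2 = -u ^ 2 * (κs + e * p.2) := q6
    rw [q8, hsg] at q5
    field_simp at q5
    field_simp
    linear_combination (-1) * q5
  -- `μ0 = 0`
  have hcf : Continuous (deriv f) := by
    rw [continuous_iff_continuousAt]
    intro x
    exact (H.hf x).deriv.continuousAt
  have hμ00 : μ0 = 0 := by
    by_contra hne
    have he : e = 0 := by
      have c1 := closure_pt (φ := fun s => (deriv f (p.1 + s) + e * p.2) *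
          (1 + (1 + μ0 * s) ^ 2 + μ1 * s ^ 2) * (1 + μ0 * s) ^ 2 -
          (A * (s * (1 + μ0 * s) ^ 2 + s * (1 + μ0 * s)) +
          A * e / G * (s ^ 2 * (1 + μ0 * s) ^ 2 - s ^ 2))) (by fun_prop) hne
          (fun s hs => by
            have := hmain s hs
            linarith)
      have c2 : 1 + μ0 * (-1 / μ0) = 0 := by field_simp; ring
      rw [c2] at c1
      have c3 : A * e / G * (-1 / μ0) ^ 2 = 0 := by linear_combination c1
      have c4 : (-1 / μ0) ^ 2 ≠ 0 := by positivity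
      rcases mul_eq_zero.mp c3 with h | h
      · rcases (div_eq_zero_iff.mp h) with h' | h'
        · rcases mul_eq_zero.mp h' with h'' | h''
          · exact absurd h'' hA0
          · exact h''
        · exact absurd h' hy
      · exact absurd h c4
    have c1 := closure_pt (φ := fun s => (deriv f (p.1 + s)) *
          (1 + (1 + μ0 * s) ^ 2 + μ1 * s ^ 2) * (1 + μ0 * s) -
          (A * (s * (1 + μ0 * s) + s))) (by fun_prop) hne
          (fun s hs => by
            have h5 := hmain s hs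
            rw [he] at h5
            have h6 : (1 + μ0 * s) ≠ 0 := hs.ne'
            apply mul_left_cancel₀ h6
            linear_combination h5)
    have c2 : 1 + μ0 * (-1 / μ0) = 0 := by field_simp; ring
    rw [c2] at c1
    have c3 : A * (-1 / μ0) = 0 := by linear_combination (-1) * c1
    have c4 : (-1 / μ0) ≠ 0 := div_ne_zero (by norm_num) hne
    rcases mul_eq_zero.mp c3 with h | h
    · exact hA0 h
    · exact c4 h
  have hm2 : ∀ s, (deriv f (p.1 + s) + e * p.2) * (2 + μ1 * s ^ 2) = 2 * A * s := by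
    intro s
    have h5 := hmain s (by rw [hμ00]; norm_num)
    rw [hμ00] at h5
    linear_combination h5
  have hμ1n : 0 ≤ μ1 := by
    by_contra hneg
    push Not at hneg
    have hpos : 0 < -2 / μ1 := div_pos_of_neg_of_neg (by norm_num) hneg
    have h5 := hm2 (Real.sqrt (-2 / μ1))
    rw [Real.sq_sqrt hpos.le] at h5
    have h6 : 2 + μ1 * (-2 / μ1) = 0 := by
      have := hneg.ne
      field_simp
      ring
    rw [h6, mul_zero] at h5
    have h7 : 0 < Real.sqrt (-2 / μ1) := Real.sqrt_pos.mpr hpos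
    have h8 : A * Real.sqrt (-2 / μ1) = 0 := by linarith
    rcases mul_eq_zero.mp h8 with h | h
    · exact hA0 h
    · exact h7.ne' h
  refine ⟨Y, μ1 / 2, h1, h2, ?_, hY0, hY2.deriv, hA0, hy, by positivity, ?_, ?_⟩
  · filter_upwards [h3] with x hx' using hx'.2.1
  · intro s
    have := hm2 s
    linear_combination (1 / 2) * this
  · intro hR
    have h5 : mu f g e Y =ᶠ[𝓝 p.1] fun _ => (0 : ℝ) := by
      filter_upwards [h3] with x r4
      exact (mu_eq H Y x r4.2.1 r4.2.2.1 r4.2.2.2).2.2 hR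
    have h6 := (hμ1.congr_of_eventuallyEq h5.symm).unique (hasDerivAt_const p.1 (0 : ℝ))
    rw [h6]
    norm_num

end Pool.Agent.R825.SI
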