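import Pool.Agent.R825.SI.D

/-!
# Project SI: the highest and lowest points of the curve
-/

set_option autoImplicit false

open Filter Topology Set
open scoped ContDiff

namespace Pool.Agent.R825.SI

variable {f g : ℝ → ℝ} {e c : ℝ} {γ U : Set (ℝ × ℝ)}

theorem ln_swap (f g : ℝ → ℝ) (e x y a b s : ℝ) : ln g f e x y a b s = ln f g e y x b a s := by
  unfold ln FF
  ring

theorem ln_neg (f g : ℝ → ℝ) (e x y a b s : ℝ) :
    ln f g e x y (-a) (-b) s = ln f g e x y a b (-s) := by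
  unfold ln FF
  simp

theorem sg_neg (m s : ℝ) : sg (-m) (-s) = - sg m s := by
  unfold sg
  rw [show 1 + -m * -s = 1 + m * s by ring]
  ring

theorem Cv.swap (H : Cv f g e c γ U) :
    Cv g f e c (Prod.swap ⁻¹' γ) (Prod.swap ⁻¹' U) where
  hf := H.hg
  hg := H.hf
  hU := H.hU.preimage continuous_swap
  hγ := by
    ext p
    rw [mem_preimage, H.hγ]
    simp only [FF, Set.mem_ofPred_eq, mem_preimage, Prod.fst_swap, Prod.snd_swap]
    constructor
    · rintro ⟨h1, h2⟩
      exact ⟨h1, by rw [← h2]; ring⟩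
    · rintro ⟨h1, h2⟩
      exact ⟨h1, by rw [← h2]; ring⟩
  reg := by
    intro p hp
    rcases H.reg _ hp with h | h
    · right
      exact h
    · left
      exact h
  curv := by
    intro p hp
    have h := H.curv _ hp
    have e1 : ∀ s, ln g f e p.1 p.2 (Fy f e p) (-Fx g e p) s =
        ln f g e p.swap.1 p.swap.2 (Fy g e p.swap) (-Fx f e p.swap) (-s) := by
      intro s
      rw [ln_swap, ← ln_neg]
      simp [Fx, Fy]
    have e2 : ln g f e p.1 p.2 (Fy f e p) (-Fx g e p) =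
        ln f g e p.swap.1 p.swap.2 (-Fy g e p.swap) (- -Fx f e p.swap) := by
      funext s
      rw [e1, ← ln_neg]
    rw [e2, ln_d2 H.hf H.hg]
    rw [ln_d2 H.hf H.hg] at h
    simp only [zero_mul, add_zero] at h ⊢
    intro h0
    apply h
    linear_combination h0
  proj := by
    intro p hp
    obtain ⟨m, hm⟩ := H.proj _ hp
    refine ⟨-m, ?_⟩
    have e1 : ∀ s, ln g f e p.1 p.2 (Fy f e p) (-Fx g e p) s =
        ln f g e p.swap.1 p.swap.2 (Fy g e p.swap) (-Fx f e p.swap) (-s) := by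
      intro s
      rw [ln_swap, ← ln_neg]
      simp [Fx, Fy]
    have ht : Tendsto (fun s : ℝ => -s) (𝓝 0) (𝓝 0) := by
      have := (continuous_neg (G := ℝ)).tendsto 0
      simpa using this
    filter_upwards [ht.eventually hm] with s hs
    rw [e1, e1, ← sg_neg, neg_neg]
    exact hs

theorem Refl.swap (H : Refl f g e γ) : Refl g f e (Prod.swap ⁻¹' γ) := by
  intro p hp m hm
  have e1 : ∀ s, ln g f e p.1 p.2 (Fy f e p) (-Fx g e p) s =
      ln f g e p.swap.1 p.swap.2 (Fy g e p.swap) (-Fx f e p.swap) (-s) := by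
    intro s
    rw [ln_swap, ← ln_neg]
    simp [Fx, Fy]
  have ht : Tendsto (fun s : ℝ => -s) (𝓝 0) (𝓝 0) := by
    have := (continuous_neg (G := ℝ)).tendsto 0
    simpa using this
  have h1 : -m = 0 := by
    refine H _ hp (-m) ?_
    filter_upwards [ht.eventually hm] with s hs
    rw [e1, e1, neg_neg, ← sg_neg, neg_neg] at hs
    exact hs
  linarith

theorem d2_nonpos {Y : ℝ → ℝ} {x : ℝ} (hY : AnalyticAt ℝ Y x) (h : IsLocalMax Y x)
    (hd : deriv Y x = 0) : deriv (deriv Y) x ≤ 0 := by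
  by_contra hpos
  push Not at hpos
  have h1 := isLocalMin_of_deriv_deriv_pos hpos hd hY.continuousAt
  have h2 : Y =ᶠ[𝓝 x] fun _ => Y x := by
    filter_upwards [h, h1] with u a1 a2 using le_antisymm a1 a2
  have h3 : deriv Y =ᶠ[𝓝 x] fun _ => 0 := by
    have := h2.deriv
    simpa using this
  have h4 := h3.deriv_eq
  simp at h4
  linarith

theorem max_horizontal (H : Cv f g e c γ U) {p : ℝ × ℝ} (hp : p ∈ γ)
    (hmax : ∀ q ∈ γ, q.2 ≤ p.2) : Fx f e p = 0 := by
  by_contra hx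
  obtain ⟨X, h1, h2, h3⟩ := curve H.swap p.swap (by simpa using hp) (by simpa [Fx, Fy] using hx)
  have h4 : ∀ᶠ y in 𝓝[>] p.2, (X y, y) ∈ γ ∧ p.2 < y := by
    have h5 : ∀ᶠ y in 𝓝[>] p.2, (X y, y) ∈ γ := by
      have : ∀ᶠ y in 𝓝 p.2, (X y, y) ∈ γ := by
        filter_upwards [h3] with y hy using hy.2.1
      exact this.filter_mono nhdsWithin_le_nhds
    exact h5.and self_mem_nhdsWithin
  obtain ⟨y, hy1, hy2⟩ := h4.exists
  have := hmax _ hy1
  simp only at this
  linarith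

theorem min_horizontal (H : Cv f g e c γ U) {p : ℝ × ℝ} (hp : p ∈ γ)
    (hmin : ∀ q ∈ γ, p.2 ≤ q.2) : Fx f e p = 0 := by
  by_contra hx
  obtain ⟨X, h1, h2, h3⟩ := curve H.swap p.swap (by simpa using hp) (by simpa [Fx, Fy] using hx)
  have h4 : ∀ᶠ y in 𝓝[<] p.2, (X y, y) ∈ γ ∧ y < p.2 := by
    have h5 : ∀ᶠ y in 𝓝[<] p.2, (X y, y) ∈ γ := by
      have : ∀ᶠ y in 𝓝 p.2, (X y, y) ∈ γ := by
        filter_upwards [h3] with y hy using hy.2.1
      exact this.filter_mono nhdsWithin_le_nhds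
    exact h5.and self_mem_nhdsWithin
  obtain ⟨y, hy1, hy2⟩ := h4.exists
  have := hmin _ hy1
  simp only at this
  linarith

theorem max_pt (H : Cv f g e c γ U) {p : ℝ × ℝ} (hp : p ∈ γ) (hmax : ∀ q ∈ γ, q.2 ≤ p.2) :
    ∃ l : ℝ, 0 ≤ l ∧ deriv (deriv f) p.1 ≠ 0 ∧ Fx f e p = 0 ∧
      0 < deriv (deriv f) p.1 * Fy g e p ∧
      (∀ s, (deriv f (p.1 + s) + e * p.2) * (1 + l * s ^ 2) = deriv (deriv f) p.1 * s) ∧
      (Refl f g e γ → l = 0) := by
  have hx := max_horizontal H hp hmax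
  obtain ⟨Y, l, h1, h2, h3, h4, h5, h6, h7, h8, h9, h10⟩ := point H p hp hx
  refine ⟨l, h8, h6, hx, ?_, h9, h10⟩
  have h11 : IsLocalMax Y p.1 := by
    filter_upwards [h3] with x hx'
    have := hmax _ hx'
    rw [h1]
    exact this
  have h12 := d2_nonpos h2 h11 h4
  rw [h5] at h12
  have h13 : -deriv (deriv f) p.1 / Fy g e p * (Fy g e p) ^ 2 ≤ 0 :=
    mul_nonpos_of_nonpos_of_nonneg h12 (sq_nonneg _)
  have h14 : -deriv (deriv f) p.1 / Fy g e p * (Fy g e p) ^ 2 =
      -(deriv (deriv f) p.1 * Fy g e p) := by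
    field_simp
  rw [h14] at h13
  have h15 : deriv (deriv f) p.1 * Fy g e p ≠ 0 := mul_ne_zero h6 h7
  exact lt_of_le_of_ne (by linarith) h15.symm

theorem min_pt (H : Cv f g e c γ U) {p : ℝ × ℝ} (hp : p ∈ γ) (hmin : ∀ q ∈ γ, p.2 ≤ q.2) :
    ∃ l : ℝ, 0 ≤ l ∧ deriv (deriv f) p.1 ≠ 0 ∧ Fx f e p = 0 ∧
      deriv (deriv f) p.1 * Fy g e p < 0 ∧
      (∀ s, (deriv f (p.1 + s) + e * p.2) * (1 + l * s ^ 2) = deriv (deriv f) p.1 * s) := by
  have hx := min_horizontal H hp hmin
  obtain ⟨Y, l, h1, h2, h3, h4, h5, h6, h7, h8, h9, h10⟩ := point H p hp hx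
  refine ⟨l, h8, h6, hx, ?_, h9⟩
  have h11 : IsLocalMax (fun x => -Y x) p.1 := by
    filter_upwards [h3] with x hx'
    have h16 := hmin _ hx'
    have h17 : p.2 ≤ Y x := h16
    change -Y x ≤ -Y p.1
    rw [h1]
    linarith
  have h12' : deriv (fun x => -Y x) = fun x => -deriv Y x := by
    funext x
    exact deriv.neg
  have h12 := d2_nonpos h2.neg h11 (by
    have := congrFun h12' p.1
    change deriv (fun x => -Y x) p.1 = 0
    rw [this, h4, neg_zero])
  have h12'' : deriv (deriv (-Y)) p.1 = -deriv (deriv Y) p.1 := by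
    have e1 : deriv (-Y) = fun x => -deriv Y x := h12'
    rw [e1]
    exact deriv.neg
  rw [h12'', h5] at h12
  have h13 : -(-deriv (deriv f) p.1 / Fy g e p) * (Fy g e p) ^ 2 ≤ 0 :=
    mul_nonpos_of_nonpos_of_nonneg h12 (sq_nonneg _)
  have h14 : -(-deriv (deriv f) p.1 / Fy g e p) * (Fy g e p) ^ 2 =
      deriv (deriv f) p.1 * Fy g e p := by
    field_simp
  rw [h14] at h13
  have h15 : deriv (deriv f) p.1 * Fy g e p ≠ 0 := mul_ne_zero h6 h7
  exact lt_of_le_of_ne (by linarith) h15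

/-- all the information given by the highest and the lowest point -/
theorem half (H : Cv f g e c γ U) (hc : IsCompact γ) (hne : γ.Nonempty) :
    ∃ A x2 y2 x1 y1 l : ℝ, (x2, y2) ∈ γ ∧ A ≠ 0 ∧ 0 ≤ l ∧ y1 < y2 ∧
      (∀ x, (deriv f x + e * y2) * (1 + l * (x - x2) ^ 2) = A * (x - x2)) ∧
      (e ≠ 0 → l = 0) ∧ (Refl f g e γ → l = 0) ∧
      0 < A * (deriv g y2 + e * x2) ∧ A * (deriv g y1 + e * x1) < 0 ∧
      deriv f x1 + e * y1 = 0 := by
  obtain ⟨p, hp, hpm⟩ := hc.exists_isMaxOn hne (continuous_snd.continuousOn (s := γ))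
  obtain ⟨q, hq, hqm⟩ := hc.exists_isMinOn hne (continuous_snd.continuousOn (s := γ))
  have hpm' : ∀ r ∈ γ, r.2 ≤ p.2 := fun r hr => hpm hr
  have hqm' : ∀ r ∈ γ, q.2 ≤ r.2 := fun r hr => hqm hr
  obtain ⟨l, a1, a2, a3, a4, a5, a6⟩ := max_pt H hp hpm'
  obtain ⟨l', b1, b2, b3, b4, b5⟩ := min_pt H hq hqm'
  set A := deriv (deriv f) p.1 with hA
  set B := deriv (deriv f) q.1 with hB
  have hlt : q.2 < p.2 := by
    rcases lt_or_eq_of_le (hqm' p hp) with h | h
    · exact h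
    · exfalso
      have h1 : ∀ r ∈ γ, p.2 ≤ r.2 := fun r hr => by
        have := hqm' r hr
        linarith
      obtain ⟨_, _, _, _, d1, _⟩ := min_pt H hp h1
      linarith
  have a5' : ∀ x, (deriv f x + e * p.2) * (1 + l * (x - p.1) ^ 2) = A * (x - p.1) := by
    intro x
    have := a5 (x - p.1)
    rwa [add_sub_cancel] at this
  have b5' : ∀ x, (deriv f x + e * q.2) * (1 + l' * (x - q.1) ^ 2) = B * (x - q.1) := by
    intro x
    have := b5 (x - q.1)
    rwa [add_sub_cancel] at this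
  have hel : e ≠ 0 → l = 0 := by
    intro he
    by_contra hl
    have P : ∀ x, (A * (x - p.1) - e * p.2 * (1 + l * (x - p.1) ^ 2)) * (1 + l' * (x - q.1) ^ 2) -
        (B * (x - q.1) - e * q.2 * (1 + l' * (x - q.1) ^ 2)) * (1 + l * (x - p.1) ^ 2) = 0 := by
      intro x
      have h1 := a5' x
      have h2 := b5' x
      linear_combination (-(1 + l' * (x - q.1) ^ 2)) * h1 + (1 + l * (x - p.1) ^ 2) * h2
    have h4 : 24 * (e * (l * l') * (q.2 - p.2)) = 0 := by
      linear_combination P (-2) - 4 * P (-1) + 6 * P 0 - 4 * P 1 + P 2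
    have h5 : l' = 0 := by
      by_contra hl'
      have hqp : q.2 - p.2 ≠ 0 := by
        intro h0
        linarith
      have : e * (l * l') * (q.2 - p.2) ≠ 0 :=
        mul_ne_zero (mul_ne_zero he (mul_ne_zero hl hl')) hqp
      apply this
      linarith
    rw [h5] at P
    have h6 : 6 * (-B * l) = 0 := by
      linear_combination P 3 - 3 * P 2 + 3 * P 1 - P 0
    have h7 : B * l ≠ 0 := mul_ne_zero b2 hl
    apply h7
    linarith
  have hAB : A = B := by
    by_cases he : e = 0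
    · have h1 := a5' q.1
      have h2 : deriv f q.1 + e * q.2 = 0 := b3
      rw [he] at h1 h2
      have h3 : A * (q.1 - p.1) = 0 := by
        rw [← h1]
        rw [show deriv f q.1 + 0 * p.2 = 0 by linarith]
        ring
      rcases mul_eq_zero.mp h3 with h | h
      · exact absurd h a2
      · have : q.1 = p.1 := by linarith
        rw [hA, hB, this]
    · have hl := hel he
      rw [hl] at a5'
      have h1 : deriv f = fun x => A * (x - p.1) - e * p.2 := by
        funext x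
        have := a5' x
        linarith
      rw [hB, h1]
      have h2 : HasDerivAt (fun x => A * (x - p.1) - e * p.2) A q.1 := by
        simpa using (((hasDerivAt_id q.1).sub_const p.1).const_mul A).sub_const (e * p.2)
      exact h2.deriv.symm
  refine ⟨A, p.1, p.2, q.1, q.2, l, hp, a2, a1, hlt, a5', hel, a6, a4, ?_, b3⟩
  rw [hAB]
  exact b4

end Pool.Agent.R825.SI
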