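import Pool.Agent.R825.SI.E

/-!
# Project SI: unbounded first integrals and the end of the proof
-/

set_option autoImplicit false

open Filter Topology Set
open scoped ContDiff

namespace Pool.Agent.R825.SI

variable {f g : ℝ → ℝ} {e c : ℝ} {γ U : Set (ℝ × ℝ)}

/-- a function with derivative `A (x - x0) / (1 + l (x - x0)²)` -/
theorem log_low {φ : ℝ → ℝ} (hφ : ∀ x, AnalyticAt ℝ φ x) {A x0 l : ℝ} (hl : 0 ≤ l)
    (h : ∀ x, deriv φ x * (1 + l * (x - x0) ^ 2) = A * (x - x0)) (x : ℝ) :
    A * φ x0 + A ^ 2 / (2 * (1 + l)) * Real.log (1 + (x - x0) ^ 2) ≤ A * φ x := by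
  set D : ℝ → ℝ := fun x => A * φ x - A ^ 2 / (2 * (1 + l)) * Real.log (1 + (x - x0) ^ 2) with hD
  have h1l : 0 < 1 + l := by linarith
  have hder : ∀ x, HasDerivAt D (A ^ 2 * (x - x0) * ((1 + l * (x - x0) ^ 2)⁻¹ -
      ((1 + l) * (1 + (x - x0) ^ 2))⁻¹)) x := by
    intro x
    have p1 : 0 < 1 + (x - x0) ^ 2 := by positivity
    have p2 : 0 < 1 + l * (x - x0) ^ 2 := by positivity
    have a1 : HasDerivAt (fun x : ℝ => 1 + (x - x0) ^ 2) (2 * (x - x0)) x := by
      have := (((hasDerivAt_id x).sub_const x0).pow 2).const_add 1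
      simpa using this
    have a2 := a1.log p1.ne'
    have a3 := ((hφ x).differentiableAt.hasDerivAt.const_mul A).sub
      (a2.const_mul (A ^ 2 / (2 * (1 + l))))
    refine a3.congr_deriv ?_
    have a4 : deriv φ x = A * (x - x0) / (1 + l * (x - x0) ^ 2) := by
      rw [eq_div_iff p2.ne']
      exact h x
    rw [a4]
    field_simp
  have hsgn : ∀ x, 0 ≤ (1 + l * (x - x0) ^ 2)⁻¹ - ((1 + l) * (1 + (x - x0) ^ 2))⁻¹ := by
    intro x
    have p2 : 0 < 1 + l * (x - x0) ^ 2 := by positivity
    have : (1 + l * (x - x0) ^ 2) ≤ (1 + l) * (1 + (x - x0) ^ 2) := by nlinarith [sq_nonneg (x - x0)]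
    have := inv_anti₀ p2 this
    linarith
  have hcont : Continuous D := by
    rw [continuous_iff_continuousAt]
    exact fun x => (hder x).continuousAt
  have hmin : D x0 ≤ D x := by
    rcases le_total x0 x with hx | hx
    · have hm : MonotoneOn D (Ici x0) := by
        refine monotoneOn_of_deriv_nonneg (convex_Ici x0) hcont.continuousOn ?_ ?_
        · intro y _
          exact (hder y).differentiableAt.differentiableWithinAt
        · intro y hy
          rw [interior_Ici] at hy
          rw [(hder y).deriv]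
          exact mul_nonneg (mul_nonneg (sq_nonneg A) (by linarith [mem_Ioi.mp hy])) (hsgn y)
      exact hm (mem_Ici.mpr le_rfl) (mem_Ici.mpr hx) hx
    · have hm : AntitoneOn D (Iic x0) := by
        refine antitoneOn_of_deriv_nonpos (convex_Iic x0) hcont.continuousOn ?_ ?_
        · intro y _
          exact (hder y).differentiableAt.differentiableWithinAt
        · intro y hy
          rw [interior_Iic] at hy
          rw [(hder y).deriv]
          exact mul_nonpos_of_nonpos_of_nonneg
            (mul_nonpos_of_nonneg_of_nonpos (sq_nonneg A) (by linarith [mem_Iio.mp hy])) (hsgn y)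
      exact hm (mem_Iic.mpr hx) (mem_Iic.mpr le_rfl) hx
  simp only [hD, sub_self] at hmin
  norm_num at hmin
  linarith

theorem log_low' {φ : ℝ → ℝ} (hφ : ∀ x, AnalyticAt ℝ φ x) {A x0 l : ℝ} (hl : 0 ≤ l)
    (h : ∀ x, deriv φ x * (1 + l * (x - x0) ^ 2) = A * (x - x0)) (x : ℝ) :
    A * φ x0 ≤ A * φ x := by
  have h1 := log_low hφ hl h x
  have h2 : 0 ≤ A ^ 2 / (2 * (1 + l)) * Real.log (1 + (x - x0) ^ 2) :=
    mul_nonneg (by positivity) (Real.log_nonneg (by nlinarith [sq_nonneg (x - x0)]))
  linarith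

theorem log_inf {φ : ℝ → ℝ} (hφ : ∀ x, AnalyticAt ℝ φ x) {A x0 l : ℝ} (hl : 0 ≤ l) (hA : A ≠ 0)
    (h : ∀ x, deriv φ x * (1 + l * (x - x0) ^ 2) = A * (x - x0)) (b a : ℝ) (ha : a ≠ 0) :
    Tendsto (fun u : ℝ => A * φ (b + u * a)) atTop atTop := by
  have h1 : Tendsto (fun u : ℝ => A * φ x0 + A ^ 2 / (2 * (1 + l)) *
      Real.log (1 + (b + u * a - x0) ^ 2)) atTop atTop := by
    apply tendsto_atTop_add_const_left
    apply Tendsto.const_mul_atTop (by positivity)
    apply Real.tendsto_log_atTop.comp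
    apply tendsto_atTop_add_const_left
    have h2 : Tendsto (fun u : ℝ => a ^ 2 / 2 * u ^ 2 + -(b - x0) ^ 2) atTop atTop := by
      apply tendsto_atTop_add_const_right
      apply Tendsto.const_mul_atTop (by positivity)
      exact tendsto_pow_atTop two_ne_zero
    refine tendsto_atTop_mono (fun u => ?_) h2
    nlinarith [sq_nonneg (a * u + 2 * (b - x0))]
  exact tendsto_atTop_mono (fun u => log_low hφ hl h _) h1

theorem refl_of_coercive (H : Cv f g e c γ U) (he : e = 0) {A B x0 y0 l k : ℝ}
    (hA : A ≠ 0) (hAB : 0 < A * B) (hl : 0 ≤ l) (hk : 0 ≤ k)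
    (h1 : ∀ x, deriv f x * (1 + l * (x - x0) ^ 2) = A * (x - x0))
    (h2 : ∀ y, deriv g y * (1 + k * (y - y0) ^ 2) = B * (y - y0)) : Refl f g e γ := by
  intro p hp m hm
  by_contra hm0
  have hB : B ≠ 0 := by
    rintro rfl
    simp at hAB
  set w1 := Fy g e p with hw1
  set w2 := -Fx f e p with hw2
  have hw : w1 ≠ 0 ∨ w2 ≠ 0 := by
    rcases H.reg p hp with h | h
    · right
      exact neg_ne_zero.mpr h
    · left
      exact h
  have hgl := glob (ln_analytic H.hf H.hg p.1 p.2 w1 w2) hm
  obtain ⟨ε, hε, hεm⟩ : ∃ ε : ℝ, (ε = 1 ∨ ε = -1) ∧ m * ε = |m| := by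
    rcases lt_or_gt_of_ne hm0 with h | h
    · exact ⟨-1, Or.inr rfl, by rw [abs_of_neg h]; ring⟩
    · exact ⟨1, Or.inl rfl, by rw [abs_of_pos h]; ring⟩
  have hεabs : |ε| = 1 := by
    rcases hε with h | h <;> rw [h] <;> norm_num
  have hε0 : ε ≠ 0 := by
    rcases hε with h | h <;> rw [h] <;> norm_num
  have hmabs : 0 < |m| := abs_pos.mpr hm0
  -- the values at `sg m (ε u)` are bounded
  have hcont : Continuous (ln f g e p.1 p.2 w1 w2) := by
    rw [continuous_iff_continuousAt]
    exact fun s => (ln_analytic H.hf H.hg p.1 p.2 w1 w2 s).continuousAt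
  obtain ⟨C, hC⟩ := (isCompact_Icc (a := -(1 / |m|)) (b := 1 / |m|)).bddAbove_image
    (continuous_const.mul hcont : Continuous fun s => A * ln f g e p.1 p.2 w1 w2 s).continuousOn
  have hbd : ∀ u : ℝ, 0 ≤ u → A * ln f g e p.1 p.2 w1 w2 (ε * u) ≤ C := by
    intro u hu
    have e1 : 1 + m * (ε * u) = 1 + |m| * u := by
      rw [← hεm]
      ring
    have e2 : 0 < 1 + m * (ε * u) := by
      rw [e1]
      positivity
    rw [← hgl _ e2]
    apply hC
    refine ⟨_, ?_, rfl⟩
    rw [mem_Icc, ← abs_le]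
    unfold sg
    rw [abs_div, abs_neg, abs_mul, hεabs, one_mul, abs_of_pos e2, e1, abs_of_nonneg hu,
      div_le_div_iff₀ (by positivity) hmabs]
    nlinarith
  -- but the first integral is unbounded along the line
  have hAg : ∀ y, A * g y = A / B * (B * g y) := by
    intro y
    field_simp
  have hABp : 0 < A / B := by
    have : A / B = A * B / B ^ 2 := by field_simp
    rw [this]
    positivity
  have hval : ∀ u, A * ln f g e p.1 p.2 w1 w2 (ε * u) =
      A * f (p.1 + u * (ε * w1)) + A / B * (B * g (p.2 + u * (ε * w2))) := by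
    intro u
    rw [← hAg]
    unfold ln FF
    rw [he]
    rw [show p.1 + ε * u * w1 = p.1 + u * (ε * w1) by ring,
      show p.2 + ε * u * w2 = p.2 + u * (ε * w2) by ring]
    ring
  have hinf : Tendsto (fun u : ℝ => A * ln f g e p.1 p.2 w1 w2 (ε * u)) atTop atTop := by
    rcases hw with h | h
    · have k1 := log_inf H.hf hl hA h1 p.1 (ε * w1) (mul_ne_zero hε0 h)
      have k2 : Tendsto (fun u : ℝ => A * f (p.1 + u * (ε * w1)) + A / B * (B * g y0))
          atTop atTop := tendsto_atTop_add_const_right _ _ k1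
      refine tendsto_atTop_mono (fun u => ?_) k2
      rw [hval]
      have := mul_le_mul_of_nonneg_left (log_low' H.hg hk h2 (p.2 + u * (ε * w2))) hABp.le
      linarith
    · have k1 := log_inf H.hg hk hB h2 p.2 (ε * w2) (mul_ne_zero hε0 h)
      have k2 : Tendsto (fun u : ℝ => A * f x0 + A / B * (B * g (p.2 + u * (ε * w2))))
          atTop atTop := tendsto_atTop_add_const_left _ _ (Tendsto.const_mul_atTop hABp k1)
      refine tendsto_atTop_mono (fun u => ?_) k2
      rw [hval]
      have := log_low' H.hf hl h1 (p.1 + u * (ε * w1))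
      linarith
  obtain ⟨u, hu1, hu2⟩ := ((hinf.eventually_gt_atTop C).and (eventually_ge_atTop 0)).exists
  have := hbd u hu2
  linarith

theorem quad {φ : ℝ → ℝ} (hφ : ∀ x, AnalyticAt ℝ φ x) {A P : ℝ}
    (h : ∀ x, deriv φ x = A * x - P) (x : ℝ) : φ x = φ 0 + A / 2 * x ^ 2 - P * x := by
  set D : ℝ → ℝ := fun x => φ x - (A / 2 * x ^ 2 - P * x) with hD
  have hder : ∀ x, HasDerivAt D 0 x := by
    intro x
    have a1 := (hφ x).differentiableAt.hasDerivAt
    have a2 : HasDerivAt (fun x : ℝ => A / 2 * x ^ 2 - P * x) (A / 2 * (2 * x) - P * 1) x := by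
      have b1 : HasDerivAt (fun x : ℝ => x ^ 2) (2 * x) x := by
        simpa using hasDerivAt_pow 2 x
      exact (b1.const_mul (A / 2)).sub ((hasDerivAt_id x).const_mul P)
    have a3 := a1.sub a2
    refine a3.congr_deriv ?_
    rw [h x]
    ring
  have hconst := is_const_of_deriv_eq_zero (fun x => (hder x).differentiableAt)
    (fun x => (hder x).deriv) x 0
  simp only [hD] at hconst
  linarith

/-- the ellipse is connected -/
theorem ellipse_conn {a b δ x0 y0 : ℝ} (hd : 0 < 4 * a * b - e ^ 2) (hδ : 0 < a * δ) :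
    IsPreconnected {p : ℝ × ℝ | a * (p.1 - x0) ^ 2 + e * (p.1 - x0) * (p.2 - y0) +
      b * (p.2 - y0) ^ 2 = δ} := by
  have ha : a ≠ 0 := by
    rintro rfl
    simp at hδ
  set r := Real.sqrt (δ / a) with hr
  set t := Real.sqrt (4 * a * δ / (4 * a * b - e ^ 2)) with ht
  have hδa : 0 < δ / a := by
    have : δ / a = a * δ / a ^ 2 := by field_simp
    rw [this]
    positivity
  have ht0 : 0 < 4 * a * δ / (4 * a * b - e ^ 2) := by
    apply div_pos _ hd
    linarith
  have hr0 : 0 < r := Real.sqrt_pos.mpr hδa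
  have ht1 : 0 < t := Real.sqrt_pos.mpr ht0
  have hr2 : r ^ 2 = δ / a := Real.sq_sqrt hδa.le
  have ht2 : t ^ 2 = 4 * a * δ / (4 * a * b - e ^ 2) := Real.sq_sqrt ht0.le
  have hS : IsPreconnected (Metric.sphere (0 : ℂ) 1) :=
    isPreconnected_sphere (by rw [Complex.rank_real_complex]; norm_num) 0 1
  have himg : {p : ℝ × ℝ | a * (p.1 - x0) ^ 2 + e * (p.1 - x0) * (p.2 - y0) +
      b * (p.2 - y0) ^ 2 = δ} =
      (fun z : ℂ => (x0 + r * z.re - e / (2 * a) * (t * z.im), y0 + t * z.im)) ''
        Metric.sphere (0 : ℂ) 1 := by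
    have hr2' : a * r ^ 2 = δ := by
      rw [hr2]
      field_simp
    have ht2' : (4 * a * b - e ^ 2) * t ^ 2 = 4 * a * δ := by
      rw [ht2]
      field_simp
    have key : ∀ z : ℂ, ‖z‖ = 1 ↔ z.re ^ 2 + z.im ^ 2 = 1 := by
      intro z
      have h1 : ‖z‖ ^ 2 = z.re ^ 2 + z.im ^ 2 := by
        rw [Complex.sq_norm, Complex.normSq_apply]
        ring
      rw [← h1]
      constructor
      · intro h
        rw [h]
        norm_num
      · intro h
        nlinarith [norm_nonneg z]
    ext ⟨x, y⟩
    simp only [Set.mem_ofPred_eq, mem_image, mem_sphere_zero_iff_norm, Prod.mk.injEq]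
    constructor
    · intro h
      refine ⟨⟨(x - x0 + e / (2 * a) * (y - y0)) / r, (y - y0) / t⟩, ?_, ?_, ?_⟩
      · rw [key]
        simp only
        rw [div_pow, div_pow]
        have e1 : r ^ 2 ≠ 0 := by positivity
        have e2 : t ^ 2 ≠ 0 := by positivity
        have hδ0 : δ ≠ 0 := by
          rintro rfl
          simp at hδ
        rw [hr2, ht2]
        have hd0 : 4 * a * b - e ^ 2 ≠ 0 := hd.ne'
        field_simp
        linear_combination 16 * a * h
      · simp only
        field_simp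
        ring
      · simp only
        field_simp
        ring
    · rintro ⟨z, hz, rfl, rfl⟩
      rw [key] at hz
      set cc := z.re
      set ss := z.im
      set q := e / (2 * a) * (t * ss) with hq
      have hq' : 2 * a * q - e * t * ss = 0 := by
        rw [hq]
        field_simp
        ring
      have h4 : 4 * a * (a * (r * cc - q) ^ 2 + e * (r * cc - q) * (t * ss) + b * (t * ss) ^ 2) =
          4 * a * δ := by
        linear_combination (-4 * a * r * cc + (2 * a * q - e * t * ss)) * hq' +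
          4 * a * cc ^ 2 * hr2' + ss ^ 2 * ht2' + 4 * a * δ * hz
      have h5 := mul_left_cancel₀ (mul_ne_zero four_ne_zero ha) h4
      rw [← h5]
      ring
  rw [himg]
  exact hS.image _ (by fun_prop)

theorem main (H : Cv f g e c γ U) (hc : IsCompact γ) (hne : γ.Nonempty) :
    ∃ a b x₀ y₀ δ : ℝ, 0 < 4 * a * b - e ^ 2 ∧ 0 < a * δ ∧
      (∀ x y, f x + g y + e * x * y =
        c - δ + (a * (x - x₀) ^ 2 + e * (x - x₀) * (y - y₀) + b * (y - y₀) ^ 2)) ∧
      γ = {p | a * (p.1 - x₀) ^ 2 + e * (p.1 - x₀) * (p.2 - y₀) + b * (p.2 - y₀) ^ 2 = δ} := by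
  obtain ⟨A, x2, y2, x1, y1, l, a1, a2, a3, a4, a5, a6, a7, a8, a9, a10⟩ := half H hc hne
  have hc' : IsCompact (Prod.swap ⁻¹' γ) := by
    rw [← image_swap_eq_preimage_swap]
    exact hc.image continuous_swap
  have hne' : (Prod.swap ⁻¹' γ).Nonempty := by
    obtain ⟨p, hp⟩ := hne
    exact ⟨p.swap, by simpa using hp⟩
  obtain ⟨B, v2, w2, v1, w1, k, b1, b2, b3, b4, b5, b6, b7, b8, b9, b10⟩ := half H.swap hc' hne'
  have hlk : l = 0 ∧ k = 0 := by
    by_cases he : e = 0
    · have hR : Refl f g e γ := by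
        have f1 : ∀ x, deriv f x * (1 + l * (x - x2) ^ 2) = A * (x - x2) := by
          intro x
          have := a5 x
          rw [he] at this
          simpa using this
        have f2 : ∀ y, deriv g y * (1 + k * (y - v2) ^ 2) = B * (y - v2) := by
          intro x
          have := b5 x
          rw [he] at this
          simpa using this
        refine refl_of_coercive H he (x0 := x2) (y0 := v2) (l := l) (k := k) a2 ?_ a3 b3 f1 f2
        rw [he] at a8 a9
        simp only [zero_mul, add_zero] at a8 a9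
        have p1 : 0 < 1 + k * (y2 - v2) ^ 2 := by positivity
        have p2 : 0 < 1 + k * (y1 - v2) ^ 2 := by positivity
        have q1 : 0 < A * B * (y2 - v2) := by
          have h4 := mul_pos a8 p1
          have h3 := f2 y2
          have h5 : A * deriv g y2 * (1 + k * (y2 - v2) ^ 2) = A * B * (y2 - v2) := by
            linear_combination A * h3
          rwa [h5] at h4
        have q2 : A * B * (y1 - v2) < 0 := by
          have h4 := mul_neg_of_neg_of_pos a9 p2
          have h3 := f2 y1
          have h5 : A * deriv g y1 * (1 + k * (y1 - v2) ^ 2) = A * B * (y1 - v2) := by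
            linear_combination A * h3
          rwa [h5] at h4
        have q3 : 0 < A * B * (y2 - y1) := by
          have : A * B * (y2 - y1) = A * B * (y2 - v2) - A * B * (y1 - v2) := by ring
          rw [this]
          linarith
        have q4 : 0 < y2 - y1 := by linarith
        exact (pos_iff_pos_of_mul_pos q3).mpr q4
      exact ⟨a7 hR, b7 hR.swap⟩
    · exact ⟨a6 he, b6 he⟩
  obtain ⟨hl, hk⟩ := hlk
  set P := A * x2 - e * y2 + 2 * e * y2 with hP
  set R := B * v2 + e * w2 with hRd
  have hf' : ∀ x, deriv f x = A * x - P := by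
    intro x
    have := a5 x
    rw [hl] at this
    linear_combination this
  have hg' : ∀ y, deriv g y = B * y - R := by
    intro y
    have := b5 y
    rw [hk] at this
    linear_combination this
  have hfq := quad H.hf hf'
  have hgq := quad H.hg hg'
  rw [hg'] at a8 a9
  rw [hf'] at a10
  have hdisc : 0 < A * B - e ^ 2 := by
    have h1 : 0 < A * ((B * y2 - R + e * x2) - (B * y1 - R + e * x1)) := by
      have : A * ((B * y2 - R + e * x2) - (B * y1 - R + e * x1)) =
        A * (B * y2 - R + e * x2) - A * (B * y1 - R + e * x1) := by ring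
      rw [this]
      linarith
    have h2 : A * ((B * y2 - R + e * x2) - (B * y1 - R + e * x1)) =
        (A * B - e ^ 2) * (y2 - y1) := by
      rw [hP] at a10
      linear_combination (-e) * a10
    rw [h2] at h1
    exact (pos_iff_pos_of_mul_pos h1).mpr (by linarith)
  set Δ := A * B - e ^ 2 with hΔ
  set X := (B * P - e * R) / Δ with hX
  set Y := (A * R - e * P) / Δ with hY
  have hX1 : A * X + e * Y = P := by
    rw [hX, hY]
    field_simp
    rw [hΔ]
    ring
  have hY1 : e * X + B * Y = R := by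
    rw [hX, hY]
    field_simp
    rw [hΔ]
    ring
  set δ := c - (f X + g Y + e * X * Y) with hδ
  have hF : ∀ x y, f x + g y + e * x * y =
      c - δ + (A / 2 * (x - X) ^ 2 + e * (x - X) * (y - Y) + B / 2 * (y - Y) ^ 2) := by
    intro x y
    rw [hδ, hfq x, hgq y, hfq X, hgq Y, ← hX1, ← hY1]
    ring
  have hpc : f x2 + g y2 + e * x2 * y2 = c := by
    have := a1
    rw [H.hγ] at this
    exact this.2
  have hq : A / 2 * (x2 - X) ^ 2 + e * (x2 - X) * (y2 - Y) + B / 2 * (y2 - Y) ^ 2 = δ := by
    have := hF x2 y2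
    linarith
  have hAδ : 0 < A / 2 * δ := by
    have h1 : A / 2 * δ = (A * (x2 - X) + e * (y2 - Y)) ^ 2 / 4 + Δ * (y2 - Y) ^ 2 / 4 := by
      rw [← hq, hΔ]
      ring
    rw [h1]
    by_cases h2 : y2 - Y = 0
    · have h3 : x2 - X ≠ 0 := by
        intro h3
        have h4 : A * (B * y2 - R + e * x2) = 0 := by
          have e1 : y2 = Y := by linarith
          have e2 : x2 = X := by linarith
          rw [e1, e2, ← hY1]
          ring
        linarith
      rw [h2]
      have h5 : 0 < (A * (x2 - X)) ^ 2 := by positivity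
      have h6 : (A * (x2 - X) + e * 0) ^ 2 / 4 + Δ * 0 ^ 2 / 4 = (A * (x2 - X)) ^ 2 / 4 := by ring
      rw [h6]
      linarith
    · have h3 : 0 < Δ * (y2 - Y) ^ 2 := by positivity
      have h5 : 0 ≤ (A * (x2 - X) + e * (y2 - Y)) ^ 2 := sq_nonneg _
      linarith
  refine ⟨A / 2, B / 2, X, Y, δ, ?_, hAδ, hF, ?_⟩
  · rw [hΔ] at hdisc
    linarith
  · set L : Set (ℝ × ℝ) := {p | A / 2 * (p.1 - X) ^ 2 + e * (p.1 - X) * (p.2 - Y) +
      B / 2 * (p.2 - Y) ^ 2 = δ} with hL
    have hLc : IsPreconnected L := ellipse_conn (by rw [hΔ] at hdisc; linarith) hAδ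
    have hLF : ∀ p, p ∈ L ↔ FF f g e p = c := by
      intro p
      rw [hL, Set.mem_ofPred_eq]
      unfold FF
      rw [hF]
      constructor
      · intro h
        linarith
      · intro h
        linarith
    have hγL : γ = L ∩ U := by
      rw [H.hγ]
      ext p
      rw [Set.mem_ofPred_eq, mem_inter_iff, hLF, and_comm]
    have hsub : L ⊆ U := by
      by_contra hnot
      rw [not_subset] at hnot
      obtain ⟨p, hp1, hp2⟩ := hnot
      have h1 : (L ∩ (U ∩ γᶜ)).Nonempty := by
        refine hLc U γᶜ H.hU hc.isClosed.isOpen_compl ?_ ?_ ?_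
        · intro q hq
          by_cases h : q ∈ U
          · exact Or.inl h
          · right
            intro h2
            rw [hγL] at h2
            exact h h2.2
        · obtain ⟨q, hq⟩ := hne
          rw [hγL] at hq
          exact ⟨q, hq⟩
        · refine ⟨p, hp1, ?_⟩
          intro h2
          rw [hγL] at h2
          exact hp2 h2.2
      obtain ⟨q, hq1, hq2, hq3⟩ := h1
      apply hq3
      rw [hγL]
      exact ⟨hq1, hq2⟩
    rw [hγL]
    exact inter_eq_left.mpr hsub

end Pool.Agent.R825.SI
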